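import Pool.Agent.W_MP_3aefc9_co.Upper

/-!
# The two-colour Ramsey numbers `r_k(k+1)` have tower-type growth

`RamseyTower.Arrow k n` says that every colouring of the `k`-element subsets of an `n`-element set
with two colours has a `(k+1)`-element subset all of whose `k`-element subsets get the same
colour; so `r_k(k+1)` is the least `n` with `Arrow k n`.
`RamseyTower.twr` is the tower function: `twr 0 = 1` and `twr (i+1) = 2 ^ twr i`,
so that `twr 1 = 2`.
-/

namespace Pool.Agent.Results.MP_3aefc9_co.TowerGrowth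

open RamseyTower

/-- There is `c > 0` such that `twr(⌊c k⌋) ≤ r_k(k+1) ≤ twr(2k+3)` for all large `k`. -/
theorem result : ∃ c : ℝ, 0 < c ∧ ∀ᶠ k : ℕ in Filter.atTop,
    ∃ r : ℕ, IsLeast {n : ℕ | Arrow k n} r ∧ twr ⌊c * (k : ℝ)⌋₊ ≤ r ∧ r ≤ twr (2 * k + 3) := by
  classical
  obtain ⟨c, hc, h⟩ := lower_bound
  refine ⟨c, hc, ?_⟩
  filter_upwards [h] with k hk
  have hex : ∃ n, Arrow k n := ⟨_, upper_bound k⟩
  refine ⟨Nat.find hex, ⟨Nat.find_spec hex, fun n hn => Nat.find_min' hex hn⟩, ?_, ?_⟩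
  · exact (hk _ (Nat.find_spec hex)).le
  · exact Nat.find_min' hex (upper_bound k)

end Pool.Agent.Results.MP_3aefc9_co.TowerGrowth
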